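import Pool.Agent.Q31.RG.Zeta

/-!
# Number rigidity of the zeta zeros (unconditional)

A point process is number rigid (Ghosh, Peres) if the number of its points in a window is determined by the
points outside the window.  The sine process, the conjectural limit of the zeta zeros at the scale of
the mean spacing, is number rigid; a Poisson process is not.  Rigidity of the zeros, in the finite form proved
here, is a consequence of Montgomery's pair correlation conjecture (for a fixed window and a fixed `K`); we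
prove it unconditionally, with an explicit linear rule for the prediction, uniformly in the length `a` of the
window and up to a bounded distance, i.e. `log T` mean spacings, from it.

Let `h = 2πa / log T` and let `n_j(t)` be the number of zeros with ordinate in `(t + jh, t + (j+1)h]`.
With the explicit coefficients `c_j`, `c_0 = 1`, equal to the average of the triangles
`max(0, 1 - |j| / 2^k)`, `1 ≤ k ≤ K`, the mean square of `∑_{|j| < 2^K} c_j (n_j(t) - a)` over
`t ∈ [T, 2T]` is `≪ (1 + log(1 + 2^K a)) / K²`, which is `≪_a 1 / K`.  Hence the number `n_0(t)` of zeros in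
the window `(t, t + h]` is the integer nearest to `a - ∑_{0 < |j| < 2^K} c_j (n_j(t) - a)`, for all
`t ∈ [T, 2T]` outside a set of measure `≪ T (1 + log(1 + 2^K a)) / K²`.

Idea of the proof.  The number of zeros in a window of `r a` mean spacings has variance
`O(1 + log(1 + r a))` (Selberg, Fujii; in the form of the starting module `TH850.UV.NVh`, `r a` up to
`log T / log log T`).  If `q_k` denotes the Fejér kernel of order `2^k` and `D_r` the Dirichlet kernel, then
`(∑_{k ≤ K} q_k)² ≤ 3072 · 2^{-K} ∑_{r ≤ 2^K} |D_r|²` pointwise on the circle; by Parseval's theorem the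
mean square in question is at most `3072 / K²` times the average of the variances of the windows of `r a` mean
spacings, `r ≤ 2^K`.
-/

set_option autoImplicit false

open MeasureTheory

namespace Pool.Agent.Results.MP_8958e8_nt.NumberRigidity

/-- the nontrivial zeros of the Riemann zeta function -/
def zeros : Set ℂ := {s : ℂ | riemannZeta s = 0 ∧ 0 < s.re ∧ s.re < 1}

/-- the number of nontrivial zeros with ordinate in `(t, t + h]`, with multiplicity -/
noncomputable def cnt (t h : ℝ) : ℕ :=
  ∑ᶠ s ∈ {s : ℂ | s ∈ zeros ∧ (t < s.im ∧ s.im ≤ t + h)}, analyticOrderNatAt riemannZeta s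

/-- the coefficients: the average of the triangles `max(0, 1 - |j| / 2^k)`, `1 ≤ k ≤ K` -/
noncomputable def c (K : ℕ) (j : ℤ) : ℝ :=
  1 / K * ∑ k ∈ Finset.range K, max 0 (1 - |(j : ℝ)| / 2 ^ (k + 1))

/-- **Number rigidity of the zeta zeros.** -/
theorem result : ∃ C T₀ : ℝ, ∀ T : ℝ, T₀ ≤ T → ∀ a : ℝ, 0 < a → ∀ K : ℕ, 2 ≤ K →
    2 ^ K * a * Real.log (2 ^ K * a) ≤ Real.log T →
    -- the mean square error of the linear prediction
    IntervalIntegrable (fun t => (((cnt t (2 * Real.pi * a / Real.log T) : ℝ) - a) +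
      ∑ j ∈ (Finset.Ioo (-(2 : ℤ) ^ K) (2 ^ K)).erase 0, c K j *
        ((cnt (t + j * (2 * Real.pi * a / Real.log T)) (2 * Real.pi * a / Real.log T) : ℝ) -
          a)) ^ 2) volume T (2 * T) ∧
    ∫ t in T..(2 * T), (((cnt t (2 * Real.pi * a / Real.log T) : ℝ) - a) +
      ∑ j ∈ (Finset.Ioo (-(2 : ℤ) ^ K) (2 ^ K)).erase 0, c K j *
        ((cnt (t + j * (2 * Real.pi * a / Real.log T)) (2 * Real.pi * a / Real.log T) : ℝ) -
          a)) ^ 2 ≤ C * T * (1 + Real.log (1 + 2 ^ K * a)) / K ^ 2 ∧
    -- the exceptional set of the rounded prediction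
    volume {t : ℝ | T ≤ t ∧ t ≤ 2 * T ∧
      (cnt t (2 * Real.pi * a / Real.log T) : ℤ) ≠
        round (a - ∑ j ∈ (Finset.Ioo (-(2 : ℤ) ^ K) (2 ^ K)).erase 0, c K j *
          ((cnt (t + j * (2 * Real.pi * a / Real.log T)) (2 * Real.pi * a / Real.log T) : ℝ) -
            a))} ≤ ENNReal.ofReal (C * T * (1 + Real.log (1 + 2 ^ K * a)) / K ^ 2) := by
  obtain ⟨C1, T1, hC1, hT1, h1⟩ := Q31.RG.rig
  obtain ⟨C2, T2, hC2, hT2, h2⟩ := Q31.RG.rig_round
  refine ⟨max C1 C2, max T1 T2, fun T hT a ha K hK hc => ?_⟩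
  have hT0 : 0 < T := by linarith [(le_max_left T1 T2).trans hT]
  have hlog : 0 ≤ 1 + Real.log (1 + 2 ^ K * a) := by
    have h3 : 0 < (2 : ℝ) ^ K * a := by positivity
    have := Real.log_nonneg (by linarith : (1 : ℝ) ≤ 1 + 2 ^ K * a)
    linarith
  have hmono : ∀ C : ℝ, C ≤ max C1 C2 → C * T * (1 + Real.log (1 + 2 ^ K * a)) / K ^ 2 ≤
      max C1 C2 * T * (1 + Real.log (1 + 2 ^ K * a)) / K ^ 2 := by
    intro C hC
    gcongr
  have hfun : (fun t : ℝ => (((cnt t (2 * Real.pi * a / Real.log T) : ℝ) - a) +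
      ∑ j ∈ (Finset.Ioo (-(2 : ℤ) ^ K) (2 ^ K)).erase 0, c K j *
        ((cnt (t + j * (2 * Real.pi * a / Real.log T)) (2 * Real.pi * a / Real.log T) : ℝ) -
          a)) ^ 2) = fun t : ℝ => (∑ j ∈ Finset.Ioo (-(2 : ℤ) ^ K) (2 ^ K), Q31.RG.c K j *
      ((TH850.UV.cnt (t + j * (2 * Real.pi * a / Real.log T))
        (2 * Real.pi * a / Real.log T) : ℝ) - a)) ^ 2 := by
    funext t
    have h0 : (0 : ℤ) ∈ Finset.Ioo (-(2 : ℤ) ^ K) (2 ^ K) := by
      rw [Finset.mem_Ioo]
      have : (0 : ℤ) < 2 ^ K := by positivity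
      exact ⟨by linarith, this⟩
    rw [← Finset.add_sum_erase (Finset.Ioo (-(2 : ℤ) ^ K) (2 ^ K)) _ h0,
      Q31.RG.c_zero K (by omega)]
    simp only [Int.cast_zero, zero_mul, add_zero, one_mul]
    rfl
  obtain ⟨h4a, h4b⟩ := h1 T ((le_max_left _ _).trans hT) a ha K hK hc
  refine ⟨?_, ?_, ?_⟩
  · rw [hfun]; exact h4a
  · rw [hfun]; exact h4b.trans (hmono _ (le_max_left _ _))
  · have h4 := h2 T ((le_max_right _ _).trans hT) a ha K hK hc
    exact h4.trans (ENNReal.ofReal_le_ofReal (hmono _ (le_max_right _ _)))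

end Pool.Agent.Results.MP_8958e8_nt.NumberRigidity
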